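import Mathlib
import Pool.Agent.V11221.CkCount
import Pool.Agent.V11221.CkNet

/-!
# There is no universal space in the `C_k`-stable closure of the separable metrizable spaces
-/

namespace Pool.Agent.Results.MP_a55298_gt.NoUniversal

open Set Filter Topology TopologicalSpace

/-- A class of topological spaces is `C_k`-stable: it is closed under passing to subspaces and
homeomorphic images (i.e. under passing from a space to any space which embeds into it), under
countable topological sums, under countable Tychonoff products, and under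
`(X, Y) ↦ C_k(X, Y)` (the space `C(X, Y)` with the compact-open topology) for `X` Lindelöf. -/
structure IsCkStable (P : ∀ T : Type, TopologicalSpace T → Prop) : Prop where
  embedding : ∀ (T T' : Type) [t : TopologicalSpace T] [t' : TopologicalSpace T'] (e : T' → T),
    IsEmbedding e → P T t → P T' t'
  sum : ∀ (ι : Type) [Countable ι] (T : ι → Type) [t : ∀ i, TopologicalSpace (T i)],
    (∀ i, P (T i) (t i)) → P (Σ i, T i) inferInstance
  prod : ∀ (ι : Type) [Countable ι] (T : ι → Type) [t : ∀ i, TopologicalSpace (T i)],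
    (∀ i, P (T i) (t i)) → P (∀ i, T i) inferInstance
  ck : ∀ (X Y : Type) [t : TopologicalSpace X] [t' : TopologicalSpace Y] [LindelofSpace X],
    P X t → P Y t' → P C(X, Y) inferInstance

/-- Membership in the `C_k`-stable closure `C[M_0]` of the class of separable metrizable spaces,
the smallest `C_k`-stable class containing all separable metrizable spaces. -/
def InCM0 (T : Type) [t : TopologicalSpace T] : Prop :=
  ∀ P : (∀ T : Type, TopologicalSpace T → Prop), IsCkStable P →
    (∀ (M : Type) [t' : TopologicalSpace M] [MetrizableSpace M] [SeparableSpace M], P M t') →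
    P T t

theorem inCM0_metrizable (M : Type) [TopologicalSpace M] [MetrizableSpace M] [SeparableSpace M] :
    InCM0 M := fun _ _ h => h M

theorem inCM0_ck (S : Set (ℕ → Bool)) : InCM0 C(S, ℝ) := fun _ hP h =>
  hP.ck S ℝ (h S) (h ℝ)

open Pool.Agent.V11221.CkNet Pool.Agent.V11221.CkCount in
theorem InCM0.card_le {U : Type} [TopologicalSpace U] (h : InCM0 U) :
    Cardinal.mk U ≤ Cardinal.continuum := by
  have h1 := h (fun T t => @T2Space T t ∧ @HasCKN T t) ?_ ?_
  · obtain ⟨h2, h3⟩ := h1
    exact h3.card_le
  · refine ⟨?_, ?_, ?_, ?_⟩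
    · rintro T T' t t' e he ⟨h1, h2⟩
      exact ⟨he.t2Space, HasCKN.of_isEmbedding he.isInducing h2⟩
    · intro ι _ T t h
      have h1 : ∀ i, T2Space (T i) := fun i => (h i).1
      exact ⟨inferInstance, HasCKN.sum fun i => (h i).2⟩
    · intro ι _ T t h
      have h1 : ∀ i, T2Space (T i) := fun i => (h i).1
      exact ⟨inferInstance, HasCKN.pi fun i => (h i).2⟩
    · rintro X Y t t' _ ⟨h1, h2⟩ ⟨h3, h4⟩
      exact ⟨inferInstance, HasCKN.ck h2 h4⟩
  · intro M t _ _
    letI := metrizableSpaceMetric M
    have : SecondCountableTopology M := UniformSpace.secondCountable_of_separable M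
    exact ⟨inferInstance, HasCKN.of_secondCountable⟩

open Pool.Agent.V11221.CkCount in
/-- There is no universal space in `C[M_0]`; in fact for every `U` in `C[M_0]` there is a subset
`S` of the Cantor set such that the member `C_k(S)` of `C[M_0]` does not embed into `U`. -/
theorem result :
    (¬ ∃ (U : Type) (t : TopologicalSpace U), InCM0 U ∧
      ∀ (T : Type) [TopologicalSpace T], InCM0 T → ∃ e : T → U, IsEmbedding e) ∧
    (∀ (U : Type) [TopologicalSpace U], InCM0 U →
      ∃ S : Set (ℕ → Bool), InCM0 C(S, ℝ) ∧ ¬ ∃ e : C(S, ℝ) → U, IsEmbedding e) := by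
  have main : ∀ (U : Type) [TopologicalSpace U], InCM0 U →
      ∃ S : Set (ℕ → Bool), InCM0 C(S, ℝ) ∧ ¬ ∃ e : C(S, ℝ) → U, IsEmbedding e := by
    intro U _ hU
    by_contra hcon
    push Not at hcon
    have h1 : ∀ S : Set (ℕ → Bool), ∃ e : C(S, ℝ) → U, IsEmbedding e := fun S =>
      hcon S (inCM0_ck S)
    choose e he using h1
    exact no_simultaneous_embedding_card hU.card_le (fun S => C(S, ℝ)) rbump (fun S => 0)
      rbump_dist e (fun S => (he S).isInducing)
  refine ⟨?_, main⟩
  rintro ⟨U, t, hU, h⟩
  obtain ⟨S, hS, hS'⟩ := main U hU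
  exact hS' (h _ hS)

end Pool.Agent.Results.MP_a55298_gt.NoUniversal
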